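import Pool.Agent.R630.FJ.Cen

/-!
# Amalgamated products with abelian groups and over central subgroups in the Farrell–Jones class

`C` is any class of groups with the closure properties `ClosedE C`, all of which are known for the
class of the groups that satisfy the K-theoretic Farrell–Jones conjecture with coefficients and finite
wreath products.

(1) Every amalgamated product `A *_K B` of a group `A` in `C` with an abelian group `B`, over any common
subgroup `K`, is in `C`. For instance adjoining roots `A *_{g = x ^ n} ⟨x⟩`.

(2) Let `K` be normal in `B` and `B ⧸ K` in `C`. Suppose that there is a section `σ` of `B → B ⧸ K` such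
that for every `b` the set of all `σ(x)⁻¹ b σ(b⁻¹ x)` is finite, and that the conjugations
`k ↦ σ(x)⁻¹ k σ(x)` of `K` extend to endomorphisms `α x` of `A` which take finitely many values on every
element of `A`. Then `A *_K B` is in `C`. If `K` is central in `B` one can take `α x = id`; then the
condition on `σ` is satisfied if the class of the central extension is bounded.

(3) The conditions on finiteness in (2) hold if `K` has finite index in `B`.

Outline of the proof. In (2), `B` is mapped to the group of the functions `B ⧸ K → A` with finitely many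
values, extended by `B ⧸ K`, by `b ↦ (σ(x)⁻¹ b σ(b⁻¹ x))_x b`, and `A` by `a ↦ (α x a)_x`. This gives a
homomorphism from `A *_K B` to a group in `C` which is injective on `B`, so that the theorem on
amalgamated products with a homomorphism injective on the amalgamated subgroup applies. In (1) one may
assume that `K` is finitely generated; a homomorphism from `B` to a rational vector space with finite
kernel on `K` and its integral parts give the section.
-/

set_option autoImplicit false

namespace Pool.Agent.Results.MP_6374fb_al.AbelianAmalgams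

open Pool.Agent.Y110.FJ Pool.Agent.R630.FJ

section defs

variable {G : Type} [Group G] (A B K : Subgroup G)

/-- `σ` is a section of `B → B ⧸ K` such that for every `b` the set of all `σ(x)⁻¹ b σ(b⁻¹ x)` is
finite, and `α x` is an endomorphism of `A` which extends the conjugation `k ↦ σ(x)⁻¹ k σ(x)` of `K`,
with finitely many values `α x a` for every `a` in `A` -/
structure Sec [(K.subgroupOf B).Normal] (σ : B ⧸ K.subgroupOf B → B)
    (α : B ⧸ K.subgroupOf B → (A →* A)) : Prop where
  sec : ∀ x, (σ x : B ⧸ K.subgroupOf B) = x
  fin : ∀ b : B, {c : B | ∃ x, c = (σ x)⁻¹ * b * σ ((b : B ⧸ K.subgroupOf B)⁻¹ * x)}.Finite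
  ext : ∀ x, ∀ k k' : A, (k : G) ∈ K → (k' : G) = (σ x : G)⁻¹ * k * (σ x : G) → α x k = k'
  fin' : ∀ a : A, {c : A | ∃ x, c = α x a}.Finite

/-- for every `b` in `B` the conjugation `k ↦ b⁻¹ k b` of `K` extends to an endomorphism of `A` -/
def ConjExtends : Prop :=
  ∀ b ∈ B, ∃ β : A →* A, ∀ k k' : A, (k : G) ∈ K → (k' : G) = b⁻¹ * k * b → β k = k'

end defs

/-- Let `C` be a class of groups with the closure properties `ClosedE C`, `A` in `C` and `G = A *_K B`.
(1) If `B` is abelian then `G` is in `C`.
(2) If `K` is normal in `B`, `B ⧸ K` is in `C` and there are `σ`, `α` as in `Sec` then `G` is in `C`.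
(3) If `K` is a normal subgroup of finite index in `B` and the conjugations of `K` by the elements of
`B` extend to endomorphisms of `A` then `G` is in `C`. -/
theorem result (C : ∀ (G : Type) [Group G], Prop) (hC : ClosedE C) (G : Type) [Group G]
    (A B K : Subgroup G) (hG : Amg A B K) (hA : C A) :
    ((∀ x ∈ B, ∀ y ∈ B, x * y = y * x) → C G) ∧
    (∀ [(K.subgroupOf B).Normal] (σ : B ⧸ K.subgroupOf B → B)
      (α : B ⧸ K.subgroupOf B → (A →* A)), C (B ⧸ K.subgroupOf B) → Sec A B K σ α → C G) ∧
    ((K.subgroupOf B).Normal → (K.subgroupOf B).FiniteIndex → ConjExtends A B K → C G) := by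
  have p2 : ∀ [(K.subgroupOf B).Normal] (σ : B ⧸ K.subgroupOf B → B)
      (α : B ⧸ K.subgroupOf B → (A →* A)), C (B ⧸ K.subgroupOf B) → Sec A B K σ α → C G := by
    intro _ σ α hQ h
    refine am_fv hC A B K hG hA hQ hA (Subgroup.inclusion hG.le_left)
      (Subgroup.inclusion_injective _) σ h.sec (fun b => ?_) α ?_ (fun a => ?_)
    · refine (h.fin b).subset ?_
      rintro _ ⟨x, rfl⟩
      exact ⟨x, rfl⟩
    · intro x k k' hk
      exact h.ext x _ _ k.2 hk
    · refine (h.fin' a).subset ?_
      rintro _ ⟨x, rfl⟩
      exact ⟨x, rfl⟩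
  refine ⟨fun hB => ?_, p2, ?_⟩
  · exact am_comm hC A B K hG hA fun x y => Subtype.ext (hB x x.2 y y.2)
  · intro _ _ hβ
    have hfin : Finite (B ⧸ K.subgroupOf B) := inferInstance
    have hQ : C (B ⧸ K.subgroupOf B) := Pool.Agent.Y430.SS.of_finite hC.base _ hfin
    choose β hβ' using hβ
    refine p2 (fun x => x.out) (fun x => β x.out x.out.2) hQ
      ⟨fun x => QuotientGroup.out_eq' x, fun b => ?_,
        fun x k k' hk h => hβ' x.out x.out.2 k k' hk h, fun a => ?_⟩
    · refine (Set.finite_range fun x : B ⧸ K.subgroupOf B =>
        (x.out)⁻¹ * b * ((b : B ⧸ K.subgroupOf B)⁻¹ * x).out).subset ?_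
      rintro _ ⟨x, rfl⟩
      exact ⟨x, rfl⟩
    · refine (Set.finite_range fun x : B ⧸ K.subgroupOf B => β x.out x.out.2 a).subset ?_
      rintro _ ⟨x, rfl⟩
      exact ⟨x, rfl⟩

end Pool.Agent.Results.MP_6374fb_al.AbelianAmalgams
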