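import Pool.Agent.R942.FJ.LocMain

/-!
# Groups of units and ideals with local units

`C` is any class of groups with the closure properties `ClosedE C`, all of which are known for the
class of the groups that satisfy the Full Farrell–Jones Conjecture.

Let `S` be a ring and `I` a two-sided ideal of `S` with local units: each finite subset of `I` lies in
a corner `F S F`, `F ∈ I` idempotent, with `GL_2(F S F)` in `C` (`LocalGL2`).

(1) Let `G` be a group and `ρ : G → Sˣ` a homomorphism which is injective on a normal subgroup `N` with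
`ρ(N) ⊆ 1 + I`. If `G ⧸ N` is in `C`, so is `G`. So a subgroup of `Sˣ` is in `C` if its image in the
units of `S ⧸ I` is in `C`.

(2) Let `N` be normal in `G`, `G ⧸ N` in `C`, `ρ : N → Sˣ` injective, and assume that the conjugation by
each element `g` of `G` is on finite subsets of `N` given by partial isomorphisms in `I`
(`LocallyPartial`). Then `G` is in `C`. Here the action of `G` on `N` need not extend to `S`.

Outline of the proof. For a finite subset `E` of `N` and `g` in `G` one finds `a, b ∈ I` with
`a b a = a`, `b a b = b`, `ρ(E) - 1` in `a b S a b` and `b (ρ(n) - 1) a = ρ(g n g⁻¹) - 1` for `n` in `E`.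
If the corner `F S F` contains `a` and `b`, the matrix with rows `b, F - b a` and `F - a b, a` in
`GL_2(F S F)` conjugates `diag(F ρ(n) F, F)` to `diag(F ρ(g n g⁻¹) F, F)`; so the conjugation by `g` on
`E` is realized in `GL_2(F S F)` and the criterion `MP_490288_al.RealizationCriterion` applies.
-/

set_option autoImplicit false

namespace Pool.Agent.Results.MP_6374fb_al.LocalUnitIdeals

open Pool.Agent.Y110.FJ Pool.Agent.R942.FJ

theorem result (C : ∀ (G : Type) [Group G], Prop) (hC : ClosedE C)
    (S : Type) [Ring S] (I : Ideal S) [I.IsTwoSided] (hI : LocalGL2 C I)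
    (G : Type) [Group G] (N : Subgroup G) [N.Normal] (hQ : C (G ⧸ N)) :
    (∀ ρ : G →* Sˣ, (∀ n ∈ N, ρ n = 1 → n = 1) → (∀ n ∈ N, (ρ n : S) - 1 ∈ I) → C G) ∧
    (∀ ρ : N →* Sˣ, Function.Injective ρ → (∀ g : G, LocallyPartial I N ρ g) → C G) :=
  ⟨fun ρ h1 h2 => main_units hC hI N ρ h1 h2 hQ, fun ρ h1 h2 => main_partial hC hI N ρ h1 h2 hQ⟩

end Pool.Agent.Results.MP_6374fb_al.LocalUnitIdeals
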