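import Pool.Agent.R684.FP.Reg

/-!
# Extensions whose kernel is a regular product

`C` is any class of groups with the closure properties `ClosedE C`, which are published for the class of
groups that satisfy the Farrell–Jones conjecture with coefficients and finite wreath products.

Let `M` be a normal subgroup of `G` with `G ⧸ M` in `C`, and let `M` be a *regular product* (Golovin) of a
family of nontrivial subgroups `B i`, `i ∈ I`, where `I` is any set: the `B i` generate `M`, and no `B i`
meets the normal closure `NC M B i` in `M` of the other ones. Examples are the restricted direct
product, the free product, and everything in between these two which is defined by verbal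
subgroups: the nilpotent products of Golovin and the verbal products of Moran. The *cartesian
subgroup* is `Ct M B = M ∩ ⋂ NC M B i`, the kernel of the homomorphism of `M` to the direct product.

Suppose that the conjugation by each `g ∈ G` maps each `B i` to an `M`-conjugate of some `B j`. The
conjugating elements of `M` may be different for different `i`. If the groups `K ⟨g⟩`, `g ∈ G`, are in `C` for
the cartesian subgroup `K`, and the groups `B i ⟨g⟩` for all `g` in `G` that normalize `B i`, then `G` is in
`C`.

The condition on `K` is satisfied if `K` is solvable, as for nilpotent products and for verbal products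
in solvable varieties, and when `K` is locally finite or free (see
`MP_490288_al.FreeProductExtensions` for free products).

Outline of the proof. `Rel_unique`: the index `j` above is unique, so that `G` acts on `I`, with `M` acting
trivially. The subgroups `NC M B i` are permuted by `G` in the same way, hence `K` is normal in `G`. An
element of `M` is the product of an element of `B i` and an element of `NC M B i`, and `B i` commutes
modulo `K` with `NC M B i`. Therefore `M ⧸ K` is the restricted direct product of the images of the `B i`,
and `G ⧸ K` permutes these subgroups. If `g` fixes the index `i` then modulo `K` it acts on the image of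
`B i`, which is isomorphic to `B i`, like an element of `G` that normalizes `B i`.
-/

set_option autoImplicit false

namespace Pool.Agent.Results.MP_6374fb_al.RegularProducts

open Pool.Agent.Y110.FJ Pool.Agent.R684.FP

theorem result (C : ∀ (G : Type) [Group G], Prop) (hC : ClosedE C)
    (G : Type) [Group G] (M : Subgroup G) [M.Normal] (hQ : C (G ⧸ M))
    (I : Type) (B : I → Subgroup G) (hne : ∀ i, B i ≠ ⊥) (hsup : ⨆ i, B i = M)
    (hreg : ∀ i, B i ⊓ NC M B i = ⊥)
    (hperm : ∀ (g : G) (i : I), ∃ j, ∃ m ∈ M, ∀ x, x ∈ B i ↔ m * (g * x * g⁻¹) * m⁻¹ ∈ B j)
    (hK : ∀ g : G, C ↥((M ⊓ ⨅ i, NC M B i) ⊔ Subgroup.zpowers g))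
    (hcyc : ∀ (i : I) (g : G), (∀ x, x ∈ B i ↔ g * x * g⁻¹ ∈ B i) →
      C ↥(B i ⊔ Subgroup.zpowers g)) : C G :=
  regular hC (⟨inferInstance, hne, hsup, hreg, hperm⟩ : Dat M B) hK hcyc hQ

end Pool.Agent.Results.MP_6374fb_al.RegularProducts
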