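import Pool.Agent.R615.K1.PT
import Pool.Agent.Y483.PW.Int

/-!
The kernels of the rational assembly maps in algebraic K-theory of groups `N ⋊ Γ`, `Γ` arbitrary.

`R` is an arbitrary ring, `rat (kgr R)` is the functor `G ↦ ℚ ⊗ K₁(R[G])` (which contains the
`ℚ ⊗ K_n(R'[G])`, `n ≤ 1`, if `R` is a Laurent polynomial ring over `R'`), and
`α_b : H_{d(b)}(G; ℚ) → ℚ ⊗ K₁(R[G])`, `b ∈ B`, is any family of transformations natural in the
group `G`, for instance the components of the classical assembly map, which are indexed by pairs of
an integer `j` and an element of a basis of `ℚ ⊗ K_{1-j}(R)`.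

`Γ` is an arbitrary group, acting on a set `V` and on a group `N` with endomorphisms `e_S`, `S ⊆ V`,
such that `e_S e_T = e_{S ∩ T}` and `γ e_S = e_{γ S} γ`, and each element of `N` is fixed by `e_S` for
some finite `S`. The kernel of the sum of the `α_b` for `N ⋊ Γ` is generated by the images of the
kernels for the subgroups `N_σ ⋊ Γ_σ`, where `σ` runs through the finite subsets of `V` without two
elements `u ≠ v` such that `N` is the amalgamated product of `N_{V - u}` and `N_{V - v}` along
`N_{V - {u, v}}`. Here `N_S` is the image of `e_S` and `Γ_σ` is the group of the elements of `Γ` which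
fix the elements of `σ`.

For instance `N` can be a graph product of groups `P v`, `v ∈ V`, the group `Γ` permuting the `P v`;
then `σ` runs through finite cliques, and `N_σ` is the product of the `P v`, `v ∈ σ`.
-/

namespace Pool.Agent.Results.MP_6374fb_al.SupportKernel

open CategoryTheory Pool.Agent.Y483 Pool.Agent.Y477.IW Pool.Agent.Y483.PW Pool.Agent.R615.K1

theorem result (R : Type) [Ring R] {B : Type} {d : B → ℕ}
    (α : ∀ b : B, hq (d b) ⟶ rat (kgr R))
    {Γ N V : Type} [Group Γ] [Group N] [MulAction Γ V] (s : Sys Γ N V) :
    GenSub α (fun σ : s.Cl => s.supG σ.1) :=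
  sys_gen (hasPT_rat (hasPTI_kgr R)) α s

end Pool.Agent.Results.MP_6374fb_al.SupportKernel
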